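import Pool.Agent.U536.CF.TN
import Pool.Agent.Results.MP_f58a57_nt.MultiplicativeValues

/-!
# Modular invariants near multiples of integers with large common factors with the values of multiplicative functions

Let `F_1, …, F_k` be positive multiplicative functions of at most polynomial growth with `F_i(p) ≤ M p` for the large primes
`p`, with different values at different large primes; for example Euler's function or the sum of the divisors. For all
`q`, `k`, `d`, `δ` there are `η > 0` and `ρ < 1` such that for all such `F_i`, all `b < 1` and `0 ≤ c < 2 b - 1`, for all large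
`N` and all complex numbers `w_1, …, w_q` the following holds for all but `N ^ k exp (-(log N)^c)` of the `k`-tuples `m` of
positive integers `≤ N`. For EVERY tuple `v` of integers `v_i ≥ exp ((log N)^b)` such that `gcd(v_i, F_i(m_i)) ≥ v_j^ρ` for all
`i`, `j`, and for ALL integers `a_i ≠ 0` and `b_i` which are bounded in absolute value by `v_l ^ η` for some `l`, the following
holds for the integers `α_i = a_i v_i + b_i`: for all points `z_i` of the upper half-plane with `j(z_i) = α_i`, every relation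
of degree at most `δ` between `z_i`, `j'(z_i)`, `j''(z_i)` with coefficients which are polynomials in `2 π i, w_1, …, w_q` over a
number field of degree at most `d` is trivial. With `w_l = j'(τ_l)`, `τ_l` special, this is the bound `3 m_1 + m_2` of the
modular Schanuel conjecture with derivatives for relations of degree `≤ δ`. The tuples `v` include all tuples of large divisors
`v_i` of the `F_i(m_i)` of comparable size.

Proof. But for few exceptional `m ≤ N`, the number of `m` with `g ∣ F(m)` is at most `N τ_J(g) / g` up to a factor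
`exp ((log N)^s)`, `J = (log N)^a`, `a < s < b`, for all `g`: write `m = k' u` with `u` squarefree and composed of primes larger
than `N^(1/J)`, `k' ≤ exp (4 (log N)^a)`. The tuples near exceptional tuples have a power saving, and so have the tuples of the
large divisors of their coordinates; the inequality `τ_J^q ≤ τ_K` for `K ≥ J^q` with Hölder's inequality for tuples bounds the
sum of `∏ τ_J(g_i) / g_i` over these. The file `MultiplicativeValues` of the starting library treats the tuples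
`v = (F_1(m_1), …, F_k(m_k))` only, with `N^k / (log N)^U` exceptions.
-/

set_option autoImplicit false

namespace Pool.Agent.Results.MP_f58a57_nt.CommonFactors

open Pool.Agent.N733.TG (LM lm_totient lm_sigma)
open Pool.Agent.U536.CF (CommonT common_near commonT_of_dvd)
open Pool.Agent.Results.MP_f58a57_nt.AlgebraicInvariants (Exceptional Z)
open Pool.Agent.Results.MP_f58a57_nt.MultiplicativeValues (int_mem_Z Z_one_card)

/-- **Modular invariants near multiples of integers with large common factors with the values of multiplicative functions.**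
For all `q`, `k ≥ 1`, `d`, `δ` there are `η > 0` and `ρ < 1` such that for all `F_1, …, F_k` which are LM, all `b < 1` and
`0 ≤ c < 2 b - 1` there is `N₀` such that for all `N ≥ N₀` and all complex numbers `w_1, …, w_q`: for all but at most
`N ^ k exp (-(log N)^c)` of the tuples `m` of positive integers `≤ N`, for EVERY tuple `v` of integers `v_i ≥ exp ((log N)^b)`
with `gcd(v_i, F_i(m_i)) ≥ v_j^ρ` for all `i`, `j`, and for all integers `a_i ≠ 0`, `b_i` with `|a_i|, |b_i| ≤ v_l ^ η` (for some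
`l` which does not depend on `i`) the tuple `(a_i v_i + b_i)` is not exceptional. Euler's function and the sum of the
divisors are LM. Tuples of divisors `v_i ≥ exp ((log N)^b)` of `F_i(m_i)` with `v_j^ρ ≤ v_i` are such tuples `v`. -/
theorem result (q k d δ : ℕ) (hk : 1 ≤ k) :
    (∃ η ρ : ℝ, 0 < η ∧ 0 < ρ ∧ ρ < 1 ∧ ∀ F : Fin k → ℕ → ℕ, (∀ i, LM (F i)) →
      ∀ b₁ c₁ : ℝ, b₁ < 1 → 0 ≤ c₁ → c₁ < 2 * b₁ - 1 → ∃ N₀ : ℕ, ∀ N : ℕ, N₀ ≤ N → ∀ w : Fin q → ℂ,
      ({m : Fin k → ℕ | (∀ i, 1 ≤ m i ∧ m i ≤ N) ∧ ¬ ∀ v : Fin k → ℕ, CommonT F b₁ ρ N m v →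
        ∀ a b : Fin k → ℤ, (∃ l, ∀ i, a i ≠ 0 ∧ |(a i : ℝ)| ≤ (v l : ℝ) ^ η ∧ |(b i : ℝ)| ≤ (v l : ℝ) ^ η) →
        ¬ Exceptional δ d w (fun i => (a i : ℂ) * (v i : ℂ) + (b i : ℂ))}.ncard : ℝ) ≤
        (N : ℝ) ^ k * Real.exp (-(Real.log N ^ c₁))) ∧
    (LM Nat.totient ∧ LM (fun m => ∑ d ∈ m.divisors, d)) ∧
    ∀ (F : Fin k → ℕ → ℕ) (b₁ ρ : ℝ) (N : ℕ) (m v : Fin k → ℕ), (∀ i, Real.exp (Real.log N ^ b₁) ≤ (v i : ℝ)) →
      (∀ i, v i ∣ F i (m i)) → (∀ i j, (v j : ℝ) ^ ρ ≤ (v i : ℝ)) → CommonT F b₁ ρ N m v := by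
  refine ⟨?_, ⟨lm_totient, lm_sigma⟩, fun F b₁ ρ N m v h1 h2 h3 => commonT_of_dvd h1 h2 h3⟩
  obtain ⟨c, hc, C, hC, h⟩ := AlgebraicInvariants.result q k 1 d δ le_rfl
  obtain ⟨η, ρ, hη, hρ0, hρ1, hkeep⟩ := common_near hk hc
  refine ⟨η, ρ, hη, hρ0, hρ1, fun F hF b₁ c₁ hb₁ hc₁ hcb => ?_⟩
  obtain ⟨N₀, hN₀⟩ := hkeep F hF (C * 3 ^ k) b₁ c₁ hb₁ hc₁ hcb
  refine ⟨N₀, fun N hN w => ?_⟩
  have h1 := hN₀ N hN {α : Fin k → ℤ | Exceptional δ d w (fun i => ((α i : ℤ) : ℂ))} (fun T hT => ?_)
  · refine le_trans (le_of_eq ?_) h1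
    congr 2
    ext m
    simp only [Set.mem_ofPred_eq, Int.cast_add, Int.cast_mul, Int.cast_natCast]
  · obtain ⟨hfin, h2⟩ := h w T hT
    have hT1 : (1 : ℝ) ≤ T := by exact_mod_cast hT
    have hT0 : (0 : ℝ) < T := by linarith
    have hfin2 : {α : Fin k → ℂ | (∀ i, α i ∈ Z 1 T) ∧ Exceptional δ d w α}.Finite :=
      (Set.Finite.pi' fun _ : Fin k => hfin).subset fun α hα => hα.1
    have h3 : {α : Fin k → ℤ | (∀ i, |α i| ≤ (T : ℤ)) ∧
        α ∈ {α : Fin k → ℤ | Exceptional δ d w (fun i => ((α i : ℤ) : ℂ))}}.ncard ≤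
        {α : Fin k → ℂ | (∀ i, α i ∈ Z 1 T) ∧ Exceptional δ d w α}.ncard := by
      refine Set.ncard_le_ncard_of_injOn (fun α i => ((α i : ℤ) : ℂ)) ?_ ?_ hfin2
      · rintro α ⟨h4, h5⟩
        exact ⟨fun i => int_mem_Z (h4 i), h5⟩
      · intro α _ β _ hαβ
        funext i
        have h6 : ((α i : ℤ) : ℂ) = ((β i : ℤ) : ℂ) := congrFun hαβ i
        exact_mod_cast h6
    have h4 : ((Z 1 T).ncard : ℝ) ≤ 3 * T := by
      have h5 : (((Z 1 T).ncard : ℕ) : ℝ) ≤ ((2 * T + 1 : ℕ) : ℝ) := by exact_mod_cast Z_one_card T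
      push_cast at h5
      linarith
    calc (({α : Fin k → ℤ | (∀ i, |α i| ≤ (T : ℤ)) ∧
        α ∈ {α : Fin k → ℤ | Exceptional δ d w (fun i => ((α i : ℤ) : ℂ))}}.ncard : ℕ) : ℝ)
        ≤ (({α : Fin k → ℂ | (∀ i, α i ∈ Z 1 T) ∧ Exceptional δ d w α}.ncard : ℕ) : ℝ) := by exact_mod_cast h3
      _ ≤ C * (T : ℝ) ^ (-c) * ((Z 1 T).ncard : ℝ) ^ k := h2
      _ ≤ C * (T : ℝ) ^ (-c) * (3 * T) ^ k :=
          mul_le_mul_of_nonneg_left (pow_le_pow_left₀ (Nat.cast_nonneg _) h4 k) (by positivity)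
      _ = C * 3 ^ k * (T : ℝ) ^ ((k : ℝ) - c) := by
          rw [mul_pow, sub_eq_neg_add, Real.rpow_add hT0, Real.rpow_natCast]
          ring

end Pool.Agent.Results.MP_f58a57_nt.CommonFactors
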