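import Pool.Agent.U536.DS.TN
import Pool.Agent.Results.MP_f58a57_nt.MultiplicativeValues

/-!
# Modular invariants near multiples of the integral combinations of two divisors of the values of multiplicative functions

Let `F_1, …, F_k` be positive multiplicative functions of at most polynomial growth with `F_i(p) ≤ M p` for the large primes
`p`, with different values at different large primes; for example Euler's function or the sum of the divisors. For all
`q`, `k`, `d`, `δ` there are `η > 0` and `ρ < 1` such that for all such `F_i`, all `b < 1`, `μ < b` and `0 ≤ c < 2 b - 1`, for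
all large `N` and all complex numbers `w_1, …, w_q` the following holds for all but `N ^ k exp (-(log N)^c)` of the `k`-tuples
`m` of positive integers `≤ N`. For EVERY tuple `v` of integers `v_i ≥ exp ((log N)^b)` of the form `v_i = u e + u' e'` with
divisors `e`, `e'` of `F_i(m_i)` and integers `|u|, |u'| ≤ exp ((log N)^μ)` (depending on `i`) such that `v_i ≥ v_j^ρ` for all
`i`, `j`, and for ALL integers `a_i ≠ 0` and `b_i` which are bounded in absolute value by `v_l ^ η` for some `l`, the following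
holds for the integers `α_i = a_i v_i + b_i`: for all points `z_i` of the upper half-plane with `j(z_i) = α_i`, every relation
of degree at most `δ` between `z_i`, `j'(z_i)`, `j''(z_i)` with coefficients which are polynomials in `2 π i, w_1, …, w_q` over a
number field of degree at most `d` is trivial. With `w_l = j'(τ_l)`, `τ_l` special, this is the bound `3 m_1 + m_2` of the
modular Schanuel conjecture with derivatives for relations of degree `≤ δ`. The tuples `v` include all tuples of comparable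
size of large sums and differences `v_i` of ANY two divisors of the `F_i(m_i)`.

Proof. But for few exceptional `m_i ≤ N`, the number of `m_i` with `g ∣ F_i(m_i)` is at most `N τ_J(g) / g` up to a factor
`exp ((log N)^s)`, `J = (log N)^a`, `a < s < b`, for all `g`: write `m_i = k' v` with `v` squarefree and composed of primes
larger than `N^(1/J)`, `k' ≤ exp (4 (log N)^a)`. Take for `g` the least common multiples of the pairs `(e, e')`: the sum of
`1 / [e, e']` over the pairs `e, e' ≤ X` with `u e + u' e' = w` is at most `4 U (1 + log X) τ(w) / w` if `|u|, |u'| ≤ U`; the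
tuples near exceptional tuples are few, and the inequality `τ_J^q ≤ τ_K` for `K ≥ J^q` with Hölder's inequality for tuples
bounds the sum over the tuples of pairs. The tuples of the hand-in `CommonFactors` of this page have large common factors with
the `F_i(m_i)`; the sums and differences of two divisors of `F_i(m_i)` have in general none. The file `MultiplicativeValues` of
the starting library treats the tuples `v = (F_1(m_1), …, F_k(m_k))` only, with `N^k / (log N)^U` exceptions.
-/

set_option autoImplicit false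

namespace Pool.Agent.Results.MP_f58a57_nt.DivisorSums

open Pool.Agent.N733.TG (LM lm_totient lm_sigma)
open Pool.Agent.U536.DS (CombT comb_near combT_pm)
open Pool.Agent.Results.MP_f58a57_nt.AlgebraicInvariants (Exceptional Z)
open Pool.Agent.Results.MP_f58a57_nt.MultiplicativeValues (int_mem_Z Z_one_card)

/-- **Modular invariants near multiples of the integral combinations of two divisors of the values of multiplicative
functions.** For all `q`, `k ≥ 1`, `d`, `δ` there are `η > 0` and `ρ < 1` such that for all `F_1, …, F_k` which are LM, all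
`b < 1`, `μ < b` and `0 ≤ c < 2 b - 1` there is `N₀` such that for all `N ≥ N₀` and all complex numbers `w_1, …, w_q`: for all
but at most `N ^ k exp (-(log N)^c)` of the tuples `m` of positive integers `≤ N`, for EVERY tuple `v` of integers
`v_i ≥ exp ((log N)^b)` of the form `v_i = u e + u' e'` with divisors `e`, `e'` of `F_i(m_i)` and integers
`|u|, |u'| ≤ exp ((log N)^μ)`, with `v_i ≥ v_j^ρ` for all `i`, `j`, and for all integers `a_i ≠ 0`, `b_i` with
`|a_i|, |b_i| ≤ v_l ^ η` (for some `l` which does not depend on `i`) the tuple `(a_i v_i + b_i)` is not exceptional. Euler's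
function and the sum of the divisors are LM. The tuples of sums and differences `v_i ≥ exp ((log N)^b)` of two divisors of
`F_i(m_i)` with `v_j^ρ ≤ v_i` are such tuples `v`. -/
theorem result (q k d δ : ℕ) (hk : 1 ≤ k) :
    (∃ η ρ : ℝ, 0 < η ∧ 0 < ρ ∧ ρ < 1 ∧ ∀ F : Fin k → ℕ → ℕ, (∀ i, LM (F i)) →
      ∀ b₁ μ c₁ : ℝ, μ < b₁ → b₁ < 1 → 0 ≤ c₁ → c₁ < 2 * b₁ - 1 → ∃ N₀ : ℕ, ∀ N : ℕ, N₀ ≤ N → ∀ w : Fin q → ℂ,
      ({m : Fin k → ℕ | (∀ i, 1 ≤ m i ∧ m i ≤ N) ∧ ¬ ∀ v : Fin k → ℕ, CombT F b₁ μ ρ N m v →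
        ∀ a b : Fin k → ℤ, (∃ l, ∀ i, a i ≠ 0 ∧ |(a i : ℝ)| ≤ (v l : ℝ) ^ η ∧ |(b i : ℝ)| ≤ (v l : ℝ) ^ η) →
        ¬ Exceptional δ d w (fun i => (a i : ℂ) * (v i : ℂ) + (b i : ℂ))}.ncard : ℝ) ≤
        (N : ℝ) ^ k * Real.exp (-(Real.log N ^ c₁))) ∧
    (LM Nat.totient ∧ LM (fun m => ∑ d ∈ m.divisors, d)) ∧
    ∀ (F : Fin k → ℕ → ℕ) (b₁ μ ρ : ℝ) (N : ℕ) (m v : Fin k → ℕ), (∀ i, Real.exp (Real.log N ^ b₁) ≤ (v i : ℝ)) →
      (∀ i, ∃ s t : ℕ, s ∣ F i (m i) ∧ t ∣ F i (m i) ∧ (v i = s + t ∨ v i = s - t ∨ v i = s)) →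
      (∀ i j, (v j : ℝ) ^ ρ ≤ (v i : ℝ)) → CombT F b₁ μ ρ N m v := by
  refine ⟨?_, ⟨lm_totient, lm_sigma⟩, fun F b₁ μ ρ N m v h1 h2 h3 => combT_pm h1 h2 h3⟩
  obtain ⟨c, hc, C, hC, h⟩ := AlgebraicInvariants.result q k 1 d δ le_rfl
  obtain ⟨η, ρ, hη, hρ0, hρ1, hkeep⟩ := comb_near hk hc
  refine ⟨η, ρ, hη, hρ0, hρ1, fun F hF b₁ μ c₁ hμ hb₁ hc₁ hcb => ?_⟩
  obtain ⟨N₀, hN₀⟩ := hkeep F hF (C * 3 ^ k) μ b₁ c₁ hμ hb₁ hc₁ hcb
  refine ⟨N₀, fun N hN w => ?_⟩
  have h1 := hN₀ N hN {α : Fin k → ℤ | Exceptional δ d w (fun i => ((α i : ℤ) : ℂ))} (fun T hT => ?_)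
  · refine le_trans (le_of_eq ?_) h1
    congr 2
    ext m
    simp only [Set.mem_ofPred_eq, Int.cast_add, Int.cast_mul, Int.cast_natCast]
  · obtain ⟨hfin, h2⟩ := h w T hT
    have hT1 : (1 : ℝ) ≤ T := by exact_mod_cast hT
    have hT0 : (0 : ℝ) < T := by linarith
    have hfin2 : {α : Fin k → ℂ | (∀ i, α i ∈ Z 1 T) ∧ Exceptional δ d w α}.Finite :=
      (Set.Finite.pi' fun _ : Fin k => hfin).subset fun α hα => hα.1
    have h3 : {α : Fin k → ℤ | (∀ i, |α i| ≤ (T : ℤ)) ∧
        α ∈ {α : Fin k → ℤ | Exceptional δ d w (fun i => ((α i : ℤ) : ℂ))}}.ncard ≤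
        {α : Fin k → ℂ | (∀ i, α i ∈ Z 1 T) ∧ Exceptional δ d w α}.ncard := by
      refine Set.ncard_le_ncard_of_injOn (fun α i => ((α i : ℤ) : ℂ)) ?_ ?_ hfin2
      · rintro α ⟨h4, h5⟩
        exact ⟨fun i => int_mem_Z (h4 i), h5⟩
      · intro α _ β _ hαβ
        funext i
        have h6 : ((α i : ℤ) : ℂ) = ((β i : ℤ) : ℂ) := congrFun hαβ i
        exact_mod_cast h6
    have h4 : ((Z 1 T).ncard : ℝ) ≤ 3 * T := by
      have h5 : (((Z 1 T).ncard : ℕ) : ℝ) ≤ ((2 * T + 1 : ℕ) : ℝ) := by exact_mod_cast Z_one_card T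
      push_cast at h5
      linarith
    calc (({α : Fin k → ℤ | (∀ i, |α i| ≤ (T : ℤ)) ∧
        α ∈ {α : Fin k → ℤ | Exceptional δ d w (fun i => ((α i : ℤ) : ℂ))}}.ncard : ℕ) : ℝ)
        ≤ (({α : Fin k → ℂ | (∀ i, α i ∈ Z 1 T) ∧ Exceptional δ d w α}.ncard : ℕ) : ℝ) := by exact_mod_cast h3
      _ ≤ C * (T : ℝ) ^ (-c) * ((Z 1 T).ncard : ℝ) ^ k := h2
      _ ≤ C * (T : ℝ) ^ (-c) * (3 * T) ^ k :=
          mul_le_mul_of_nonneg_left (pow_le_pow_left₀ (Nat.cast_nonneg _) h4 k) (by positivity)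
      _ = C * 3 ^ k * (T : ℝ) ^ ((k : ℝ) - c) := by
          rw [mul_pow, sub_eq_neg_add, Real.rpow_add hT0, Real.rpow_natCast]
          ring

end Pool.Agent.Results.MP_f58a57_nt.DivisorSums
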