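import Pool.Agent.U449.BV.VU
import Pool.Agent.Results.MP_f58a57_nt.AlgebraicInvariants

/-!
# The modular Schanuel conjecture with special points near the coordinates of polynomials on arbitrary sets

For all `q`, `k ≥ 1`, `d'`, `δ'` there is `c > 0` such that the following holds for `κ ≥ 0`, `k - c + k κ < δ ≤ k`. Let `p` be a large prime,
`f(x, y)` ANY polynomial of degree at most `D` over the field of `p ^ k` elements with a monomial which contains both variables (for
example `f = x y`), let `A`, `B` be ARBITRARY subsets of this field with at least `p ^ δ` elements, and `g`, `h` ARBITRARY functions.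
For all the pairs `(a, b)` in `A × B`, apart from a proportion of at most `p ^ (-ρ)`, and for ALL tuples `α` of integers at a distance
of at most `p ^ κ` from the tuple of the least residues of the `k` coordinates of `f(a, b) + g(a) + h(b)`: for all points `z_i` of the
upper half-plane with `j(z_i) = α_i`, every relation of degree at most `δ'` between `z_i`, `j'(z_i)`, `j''(z_i)` with coefficients which
are polynomials in `2 π i, w_1, …, w_q` over a number field of degree at most `d'` is trivial. With `w_l = j'(τ_l)`, `τ_l` special, this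
is the bound `3 m_1 + m_2` of the modular Schanuel conjecture with derivatives for relations of degree `≤ δ'`. How large `p` has to
be does not depend on `w_1, …, w_q`. More generally, this holds for the values `F(a, b)` of all vector functions of two variables
with few coincidences (`RareV`), on arbitrary finite sets.

Since the sets and the functions `g` and `h` are arbitrary, the tuples have no arithmetic structure, and a tuple may be
taken by very many pairs. So the number of the exceptions (starting library) does not give the result directly. Proof: the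
inequality of Cauchy and Schwarz; for most pairs `a, a'` the difference `F(a, b) - F(a', b)` is small for few `b`
(`Pool.Agent.U449.BV`).
-/

set_option autoImplicit false

namespace Pool.Agent.Results.MP_f58a57_nt.MixedPolynomials

open Finset
open Pool.Agent.U449.BV (RareV OnProductsU on_products_int_saving coordinates)
open Pool.Agent.Results.MP_f58a57_nt.AlgebraicInvariants (Exceptional Z)

/-- ALL tuples `α` of integers with `|α_i - x_i| ≤ W` for all `i` are not exceptional. -/
def Near {q : ℕ} (k δ d : ℕ) (w : Fin q → ℂ) (W : ℝ) (x : Fin k → ℝ) : Prop :=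
  ∀ α : Fin k → ℤ, (∀ i, |(α i : ℝ) - x i| ≤ W) → ¬ Exceptional δ d w fun i => ((α i : ℤ) : ℂ)

lemma int_mem_Z {n : ℤ} {T : ℕ} (h : |n| ≤ (T : ℤ)) : (n : ℂ) ∈ Z 1 T := by
  have h1 : minpoly ℚ (n : ℂ) = Polynomial.X - Polynomial.C (n : ℚ) := by
    have := minpoly.eq_X_sub_C (A := ℚ) ℂ (n : ℚ)
    rw [← this]
    simp
  refine ⟨?_, ?_, fun z hz => ?_⟩
  · have := isIntegral_algebraMap (R := ℤ) (A := ℂ) (x := n)
    simpa using this
  · rw [h1, Polynomial.natDegree_X_sub_C]
  · rw [h1] at hz
    have h2 : z = (n : ℂ) := by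
      simpa [sub_eq_zero] using hz
    rw [h2, Complex.norm_intCast]
    exact_mod_cast h

lemma mem_Z_int {ξ : ℂ} {T : ℕ} (h : ξ ∈ Z 1 T) : ∃ n : ℤ, |n| ≤ (T : ℤ) ∧ (n : ℂ) = ξ := by
  obtain ⟨h1, h2, h3⟩ := h
  have hq : IsIntegral ℚ ξ := h1.tower_top
  have h4 : (minpoly ℚ ξ).natDegree = 1 := le_antisymm h2 (minpoly.natDegree_pos hq)
  obtain ⟨r, hr⟩ := minpoly.natDegree_eq_one_iff.1 h4
  have h5 : IsIntegral ℤ r := by
    rw [← hr] at h1
    exact (isIntegral_algebraMap_iff (algebraMap ℚ ℂ).injective).1 h1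
  obtain ⟨n, hn⟩ := IsIntegrallyClosed.isIntegral_iff.1 h5
  have h6 : (n : ℂ) = ξ := by
    rw [← hr, ← hn]
    simp
  refine ⟨n, ?_, h6⟩
  have h7 := h3 ξ (minpoly.aeval ℚ ξ)
  rw [← h6, Complex.norm_intCast] at h7
  exact_mod_cast h7

lemma Z_one_card (T : ℕ) : (Z 1 T).ncard ≤ 2 * T + 1 := by
  have hsub : Z 1 T ⊆ ((fun n : ℤ => (n : ℂ)) '' (Finset.Icc (-(T : ℤ)) T : Finset ℤ)) := by
    intro ξ hξ
    obtain ⟨n, hn, h⟩ := mem_Z_int hξ
    exact ⟨n, by rw [Finset.mem_coe, Finset.mem_Icc]; exact abs_le.1 hn, h⟩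
  have h1 := Set.ncard_le_ncard hsub ((Finset.finite_toSet _).image _)
  refine h1.trans ((Set.ncard_image_le (Finset.finite_toSet _)).trans ?_)
  rw [Set.ncard_coe_finset, Int.card_Icc]
  omega

/-- **Theorem.** For all `q`, `k ≥ 1`, `d'`, `δ'` there is `c > 0` such that for all `κ ≥ 0` the property `Near`, with windows of length
`X ^ κ`, holds, uniformly in `w_1, …, w_q ∈ ℂ`, for almost all values of vector functions of two variables with few coincidences, on
arbitrary finite sets of at least `X ^ δ` elements, `k - c + k κ < δ ≤ k` (`OnProductsU`).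
The tuples of the least residues modulo `p` of the coordinates (with respect to a basis over the field of `p` elements) of
`f(a, b) + g(a) + h(b)` in a field of `p ^ k` elements are such a function, with `X = p`, for all polynomials `f` over this
field with a monomial which contains both variables, arbitrary functions `g` and `h`, and arbitrary finite subsets. -/
theorem result :
    (∀ q k d' δ' : ℕ, 1 ≤ k → ∃ c : ℝ, 0 < c ∧ ∀ κ : ℝ, 0 ≤ κ →
      OnProductsU k ((k : ℝ) - c + k * κ) κ (fun w : Fin q → ℂ => Near k δ' d' w)) ∧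
    ∀ (p : ℕ) [Fact p.Prime] (k : ℕ) (K : Type) [Field K] [Algebra (ZMod p) K] (e : Module.Basis (Fin k) (ZMod p) K)
      (d : ℕ) (f : MvPolynomial (Fin 2) K), f.totalDegree ≤ d → (∃ m ∈ f.support, m 0 ≠ 0 ∧ m 1 ≠ 0) →
      ∀ (g h : K → K) (A B : Finset K),
        RareV d A B (fun a b i => (((e.repr (MvPolynomial.eval ![a, b] f + g a + h b) i).val : ℕ) : ℝ)) := by
  refine ⟨fun q k d δ hk => ?_, coordinates⟩
  obtain ⟨c, hc, C, hC, h⟩ := AlgebraicInvariants.result q k 1 d δ le_rfl
  have hk1 : (0 : ℝ) < k := by exact_mod_cast hk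
  refine ⟨min c k, lt_min hc hk1, fun κ hκ => ?_⟩
  refine (on_products_int_saving (k := k) (Ω := Fin q → ℂ)
    (fun w => {α : Fin k → ℤ | Exceptional δ d w (fun i => ((α i : ℤ) : ℂ))}) (c := c) (C := C * 3 ^ k) hκ
    (fun w T hT => ?_)).mono id (fun w W x _ h' α hα hE => h' α hα hE)
  obtain ⟨hfin, h2⟩ := h w T hT
  have hT1 : (1 : ℝ) ≤ T := by exact_mod_cast hT
  have hT0 : (0 : ℝ) < T := by linarith
  have hfin2 : {α : Fin k → ℂ | (∀ i, α i ∈ Z 1 T) ∧ Exceptional δ d w α}.Finite :=
    (Set.Finite.pi' fun _ : Fin k => hfin).subset fun α hα => hα.1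
  have h3 : {α : Fin k → ℤ | (∀ i, |α i| ≤ (T : ℤ)) ∧
      α ∈ {α : Fin k → ℤ | Exceptional δ d w (fun i => ((α i : ℤ) : ℂ))}}.ncard ≤
      {α : Fin k → ℂ | (∀ i, α i ∈ Z 1 T) ∧ Exceptional δ d w α}.ncard := by
    refine Set.ncard_le_ncard_of_injOn (fun α i => ((α i : ℤ) : ℂ)) ?_ ?_ hfin2
    · rintro α ⟨h4, h5⟩
      exact ⟨fun i => int_mem_Z (h4 i), h5⟩
    · intro α _ β _ hαβ
      funext i
      have h6 : ((α i : ℤ) : ℂ) = ((β i : ℤ) : ℂ) := congrFun hαβ i
      exact_mod_cast h6
  have h4 : ((Z 1 T).ncard : ℝ) ≤ 3 * T := by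
    have h5 : (((Z 1 T).ncard : ℕ) : ℝ) ≤ ((2 * T + 1 : ℕ) : ℝ) := by exact_mod_cast Z_one_card T
    push_cast at h5
    linarith
  calc (({α : Fin k → ℤ | (∀ i, |α i| ≤ (T : ℤ)) ∧
      α ∈ {α : Fin k → ℤ | Exceptional δ d w (fun i => ((α i : ℤ) : ℂ))}}.ncard : ℕ) : ℝ)
      ≤ (({α : Fin k → ℂ | (∀ i, α i ∈ Z 1 T) ∧ Exceptional δ d w α}.ncard : ℕ) : ℝ) := by exact_mod_cast h3
    _ ≤ C * (T : ℝ) ^ (-c) * ((Z 1 T).ncard : ℝ) ^ k := h2
    _ ≤ C * (T : ℝ) ^ (-c) * (3 * T) ^ k :=
        mul_le_mul_of_nonneg_left (pow_le_pow_left₀ (Nat.cast_nonneg _) h4 k) (by positivity)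
    _ = C * 3 ^ k * (T : ℝ) ^ ((k : ℝ) - c) := by
        rw [mul_pow, sub_eq_neg_add, Real.rpow_add hT0, Real.rpow_natCast]
        ring

end Pool.Agent.Results.MP_f58a57_nt.MixedPolynomials
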