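import Pool.Agent.U534.AlgPred

/-!
# The modular Schanuel conjecture with derivatives over all special values: every sequence of algebraic invariants outside of
# predictable exceptional sets

Let `z_1, …, z_n` be points of the upper half-plane whose invariants `t_i = j(z_i)` are algebraic. If they are not special
and lie in distinct `GL_2(ℚ)`-orbits, the modular Schanuel conjecture with derivatives and special points predicts that the
`3n` numbers `z_i`, `j'(z_i)`, `j''(z_i)` are algebraically independent, also over the field generated by the values `j'`, `j''`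
at special points which is countable.

Let `m_j`, `A_j` be any sequences of integers (they may grow as fast as one likes). We consider algebraic numbers `ξ` which are
roots of nonzero integral polynomials of degree at most `m_j` with coefficients at most `|ξ|^(A_j)` in absolute value, and
their neighbours `ξ - G, ξ - 2 G, …, ξ - H G`; here `G ≥ G₀` is an integer, `G₀` an absolute constant. There are
constants `C_j` and exceptional sets `E_j(t_0, …, t_(j-1))` of complex numbers, which depend only on the numbers chosen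
before, such that at most `C_j` of the neighbours `ξ - g G`, `1 ≤ g ≤ H`, belong to `E_j`, whenever `(H + 2)^(C_j) ≤ |ξ|`, with
the following property. Let `t_0, t_1, …` be ANY sequence of complex numbers with `t_j ∉ E_j(t_0, …, t_(j-1))` for `j ≥ j₀`, and
let `z_j` be any points of the upper half-plane with `j(z_j) = t_j` (`j ≥ j₀`).

* Let `F` be any countable set of complex numbers, for instance the algebraic closure of the field generated by the values
  `s`, `j(s)`, `j'(s)`, `j''(s)` at ALL special points `s`. The sets `E_j` can be chosen such that for every nonzero polynomial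
  `P` in `3n` variables with coefficients in `F`, of any degree, there is `l`, the same for all these sequences, such that `P`
  does not vanish at the `3n` numbers `z_s`, `j'(z_s)`, `j''(z_s)`, for all distinct `s_1, …, s_n ≥ max(l, j₀)`.
* Let `δ_0 ≤ δ_1 ≤ ⋯` and `ρ_0, ρ_1, …` be integers. There are `C_j` such that for all `ℚ`-vector spaces
  `V_0 ⊆ V_1 ⊆ ⋯` of complex numbers of dimensions at most `ρ_j` there are such sets `E_j` such that for all such sequences and
  all `l ≥ j₀` the numbers at the points `z_j`, `j ≥ l`, satisfy no nontrivial polynomial relation in any number of variables,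
  of degree at most `δ_l` in each variable, with coefficients in `K V_l`, `K` any number field of degree at most `δ_l`.

The theorem on one short window around an algebraic number is a library theorem (`Pool.Agent.Y120.A.winJ`, the hand-in
`MP_f58a57_nt.AlgebraicInvariants` and its relatives). The earlier points are constants for the later ones, through
spaces which contain the monomials at all points of a fibre (`Pool.Agent.U534.AlgMod`), and the exceptional sets are the numbers
with a new relation. The hand-in `MP_5e64e7_nt.PredictableSequences` treats sequences of integers. This file replaces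
`AlmostFullWindows`, where one infinite set of neighbours is constructed.
-/

set_option autoImplicit false

namespace Pool.Agent.Results.MP_f58a57_nt.PredictableSequences

/-- the normalised Eisenstein series of weight `4` -/
noncomputable def E4 (τ : ℂ) : ℂ :=
  1 + 240 * ∑' m : ℕ, ((ArithmeticFunction.sigma 3 (m + 1) : ℕ) : ℂ) *
    Complex.exp (2 * (Real.pi : ℂ) * Complex.I * ((m : ℂ) + 1) * τ)

/-- the normalised Eisenstein series of weight `6` -/
noncomputable def E6 (τ : ℂ) : ℂ :=
  1 - 504 * ∑' m : ℕ, ((ArithmeticFunction.sigma 5 (m + 1) : ℕ) : ℂ) *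
    Complex.exp (2 * (Real.pi : ℂ) * Complex.I * ((m : ℂ) + 1) * τ)

/-- the modular invariant `j = q⁻¹ + 744 + 196884 q + ⋯` -/
noncomputable def J (τ : ℂ) : ℂ := 1728 * E4 τ ^ 3 / (E4 τ ^ 3 - E6 τ ^ 2)

/-- the numbers `z`, `j'(z)`, `j''(z)` -/
noncomputable def numbers (z : ℂ) : Fin 3 → ℂ := ![z, deriv J z, deriv (deriv J) z]

/-- the numbers `s`, `j(s)`, `j'(s)`, `j''(s)` at all special points `s` -/
def SpecialValues : Set ℂ :=
  {x | ∃ s : ℂ, 0 < s.im ∧ (∃ a b c : ℤ, a ≠ 0 ∧ a * s ^ 2 + b * s + c = 0) ∧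
    (x = s ∨ x = J s ∨ x = deriv J s ∨ x = deriv (deriv J) s)}

/-- `ξ` is a root of a nonzero integral polynomial of degree at most `m` with coefficients at most `|ξ| ^ A`. -/
def Bounded (m A : ℕ) (ξ : ℂ) : Prop :=
  ∃ p : Polynomial ℤ, p ≠ 0 ∧ p.natDegree ≤ m ∧ (∀ i, |(p.coeff i : ℝ)| ≤ ‖ξ‖ ^ A) ∧ Polynomial.aeval ξ p = 0

/-- At most `C_j` of the numbers `ξ - G, ξ - 2 G, …, ξ - H G` belong to `E_j(t_0, …, t_(j-1))`, for all `ξ` with
`Bounded (m j) (A j) ξ` and `(H + 2) ^ C_j ≤ |ξ|`. -/
def Sparse (G : ℕ) (m A C : ℕ → ℕ) (E : ∀ j, (Fin j → ℂ) → Set ℂ) : Prop :=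
  ∀ (j : ℕ) (τ : Fin j → ℂ) (ξ : ℂ) (H : ℕ), Bounded (m j) (A j) ξ → ((H : ℝ) + 2) ^ C j ≤ ‖ξ‖ →
    {g : ℕ | 1 ≤ g ∧ g ≤ H ∧ ξ - ((G * g : ℕ) : ℂ) ∈ E j τ}.ncard ≤ C j

/-- `t_j ∉ E_j(t_0, …, t_(j-1))` for `j ≥ j₀` -/
def Avoids (E : ∀ j, (Fin j → ℂ) → Set ℂ) (j₀ : ℕ) (t : ℕ → ℂ) : Prop := ∀ j, j₀ ≤ j → t j ∉ E j fun a => t a

/-- `z_j` is in the upper half-plane and `j(z_j) = t_j`, for `j ≥ j₀` -/
def Above (j₀ : ℕ) (t : ℕ → ℂ) (z : ℕ → ℂ) : Prop := ∀ j, j₀ ≤ j → 0 < (z j).im ∧ J (z j) = t j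

section proofs

lemma J_eq : J = Pool.Agent.TH21.MS.jj := by
  have h4 : E4 = Pool.Agent.TH21.MS.E4 := funext Pool.Agent.Y120.J.E4_same
  have h6 : E6 = Pool.Agent.TH21.MS.E6 := funext Pool.Agent.Y120.J.E6_same
  funext τ
  unfold J Pool.Agent.TH21.MS.jj
  rw [h4, h6]

lemma numbers_mem {t : ℂ} {z : ℂ} (h0 : 0 < z.im) (h : J z = t) : numbers z ∈ Pool.Agent.U534.Tens.YC t := by
  refine ⟨⟨z, h0⟩, ?_, ?_⟩
  · rw [← J_eq]
    exact h
  · show numbers z = Pool.Agent.Y120.J.jt z
    unfold numbers Pool.Agent.Y120.J.jt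
    rw [J_eq]

/-- there are countably many special values -/
theorem special_countable : SpecialValues.Countable := by
  have h1 : {s : ℂ | ∃ a b c : ℤ, a ≠ 0 ∧ a * s ^ 2 + b * s + c = 0}.Countable := by
    refine (Algebraic.countable ℤ ℂ).mono fun s hs => ?_
    obtain ⟨a, b, c, ha, h⟩ := hs
    refine ⟨Polynomial.C a * Polynomial.X ^ 2 + Polynomial.C b * Polynomial.X + Polynomial.C c, ?_, ?_⟩
    · intro h0
      have h2 := Polynomial.leadingCoeff_quadratic (b := b) (c := c) ha
      rw [h0, Polynomial.leadingCoeff_zero] at h2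
      exact ha h2.symm
    · simpa using h
  have h2 : SpecialValues ⊆ ⋃ f ∈ ({id, J, deriv J, deriv (deriv J)} : Set (ℂ → ℂ)),
      f '' {s : ℂ | ∃ a b c : ℤ, a ≠ 0 ∧ a * s ^ 2 + b * s + c = 0} := by
    rintro x ⟨s, -, hs, hx⟩
    rcases hx with h | h | h | h
    · exact Set.mem_biUnion (x := id) (by simp) ⟨s, hs, h.symm⟩
    · exact Set.mem_biUnion (x := J) (by simp) ⟨s, hs, h.symm⟩
    · exact Set.mem_biUnion (x := deriv J) (by simp) ⟨s, hs, h.symm⟩
    · exact Set.mem_biUnion (x := deriv (deriv J)) (by simp) ⟨s, hs, h.symm⟩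
  refine Set.Countable.mono h2 ?_
  exact Set.Countable.biUnion (Set.toFinite _).countable fun f _ => h1.image f

/-- the algebraic closure of the field of special values is countable -/
theorem closure_countable : {x : ℂ | IsAlgebraic (Subfield.closure SpecialValues) x}.Countable := by
  have h1 : Countable (Subfield.closure SpecialValues) := by
    rw [← Cardinal.mk_le_aleph0_iff]
    refine (Subfield.cardinalMk_closure_le_max _).trans ?_
    exact max_le special_countable.le_aleph0 le_rfl
  exact Algebraic.countable _ _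

end proofs

/-- **Main result.** -/
theorem result :
    -- the algebraic closure of the field of all special values may be taken as set of constants
    {x : ℂ | IsAlgebraic (Subfield.closure SpecialValues) x}.Countable ∧
    ∃ G₀ : ℕ, 1 ≤ G₀ ∧ ∀ G : ℕ, G₀ ≤ G → ∀ m A : ℕ → ℕ,
    -- all polynomials over a countable set of constants
    (∀ F : Set ℂ, F.Countable → ∃ (C : ℕ → ℕ) (E : ∀ j, (Fin j → ℂ) → Set ℂ), Sparse G m A C E ∧
      ∀ (n : ℕ) (P : MvPolynomial (Fin n × Fin 3) ℂ), P ≠ 0 → (∀ s, P.coeff s ∈ F) → ∃ l : ℕ,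
        ∀ (j₀ : ℕ) (t z : ℕ → ℂ), Avoids E j₀ t → Above j₀ t z →
          ∀ s : Fin n → ℕ, Function.Injective s → (∀ i, j₀ ≤ s i ∧ l ≤ s i) →
            MvPolynomial.eval (fun v => numbers (z (s v.1)) v.2) P ≠ 0) ∧
    -- given degrees and constants
    ∀ δ ρ : ℕ → ℕ, Monotone δ → ∃ C : ℕ → ℕ, ∀ V : ℕ → Submodule ℚ ℂ, (∀ j, Module.Finite ℚ (V j)) → Monotone V →
      (∀ j, Module.finrank ℚ (V j) ≤ ρ j) → ∃ E : ∀ j, (Fin j → ℂ) → Set ℂ, Sparse G m A C E ∧
      ∀ (j₀ : ℕ) (t z : ℕ → ℂ), Avoids E j₀ t → Above j₀ t z →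
      ∀ l : ℕ, j₀ ≤ l → ∀ K : IntermediateField ℚ ℂ, FiniteDimensional ℚ K → Module.finrank ℚ K ≤ δ l →
      ∀ P : MvPolynomial (ℕ × Fin 3) ℂ, P ≠ 0 → (∀ v ∈ P.vars, l ≤ v.1) → (∀ v, P.degreeOf v ≤ δ l) →
        (∀ s, P.coeff s ∈ Submodule.span K (V l : Set ℂ)) →
        MvPolynomial.eval (fun v => numbers (z v.1) v.2) P ≠ 0 := by
  refine ⟨closure_countable, ?_⟩
  obtain ⟨G₀, hG₀, hmain⟩ := Pool.Agent.U534.Tens.algebraic_pred
  refine ⟨G₀, hG₀, fun G hG m A => ⟨fun F hF => ?_, fun δ ρ hδ => ?_⟩⟩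
  · obtain ⟨C, E, hE, h⟩ := Pool.Agent.U534.Tens.algebraic_count (G := G) (m := m) (A := A)
      (fun {δ} hδ ρ => hmain G hG m A hδ ρ) F hF
    refine ⟨C, E, hE, fun n P hP hPc => ?_⟩
    obtain ⟨l, hl⟩ := h n P hP hPc
    exact ⟨l, fun j₀ t z ht hz s hs hsl => hl t j₀ ht (fun j => numbers (z j))
      (fun j hj => numbers_mem (hz j hj).1 (hz j hj).2) s hs hsl⟩
  · obtain ⟨C, h⟩ := hmain G hG m A hδ ρ
    refine ⟨C, fun V hVf hV hVρ => ?_⟩
    obtain ⟨E, hE, hm⟩ := h V hVf hV hVρ
    exact ⟨E, hE, fun j₀ t z ht hz l hl K hK hKD P hP hPv hPd hPc => hm t j₀ ht (fun j => numbers (z j))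
      (fun j hj => numbers_mem (hz j hj).1 (hz j hj).2) l hl K hK hKD P hP hPv hPd hPc⟩

end Pool.Agent.Results.MP_f58a57_nt.PredictableSequences
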